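import Pool.Agent.WFT.Defs

/-! MP_7dd379_ag, block (D): two auxiliary lemmas for helper12 (helper66). -/

set_option linter.style.haveILetI false

namespace Pool.Agent.WFT

open IsLocalRing

namespace DualAux

/-- finiteness from generators -/
lemma finite_of_gen {R B ι : Type*} [CommRing R] [CommRing B] [Fintype ι] (f : R →+* B)
    (e : ι → B) (h : ∀ b, ∃ c : ι → R, b = ∑ i, f (c i) * e i) : f.Finite := by
  classical
  letI := f.toAlgebra
  change Module.Finite R B
  refine ⟨⟨Finset.univ.image e, ?_⟩⟩
  rw [eq_top_iff]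
  rintro b -
  obtain ⟨c, hc⟩ := h b
  rw [hc]
  refine sum_mem fun i _ => ?_
  have : f (c i) * e i = c i • e i := by rw [Algebra.smul_def]; rfl
  rw [this]
  exact Submodule.smul_mem _ _ (Submodule.subset_span (by simp))

/-- descent of finiteness along an injective map, over a field -/
lemma finite_of_comp_inj {K B C : Type*} [Field K] [CommRing B] [CommRing C] (f : K →+* B)
    (g : B →+* C) (hg : Function.Injective g) (h : (g.comp f).Finite) : f.Finite := by
  letI := f.toAlgebra
  letI := g.toAlgebra
  letI := (g.comp f).toAlgebra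
  haveI : IsScalarTower K B C := IsScalarTower.of_algebraMap_eq' rfl
  haveI : Module.Finite K C := h
  change Module.Finite K B
  exact Module.Finite.of_injective (IsScalarTower.toAlgHom K B C).toLinearMap hg

end DualAux

open DualAux

/-- L2 -/
theorem ffin_coeff (p : ℕ) [Fact p.Prime] (n : ℕ) (k' S : Type*) [Field k'] [CommRing S]
    [IsLocalRing S] [CharP S p] [Algebra (PS n k') S] [Module.Finite (PS n k') S]
    (hinj : Function.Injective (algebraMap (PS n k') S)) {ι : Type*} [Fintype ι] (e : ι → S)
    (he : ∀ s, ∃ c : ι → S, s = ∑ i, c i ^ p * e i) : ∃ (h : CharP k' p), FFin k' p := by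
  have hC : Function.Injective ((algebraMap (PS n k') S).comp MvPowerSeries.C) :=
    hinj.comp MvPowerSeries.C_injective
  have hchar : CharP k' p := RingHom.charP _ hC p
  refine ⟨hchar, ?_⟩
  let F := ResidueField S
  haveI : CharP F p := charP_of_injective_ringHom (f :=
      (residue S).comp ((algebraMap (PS n k') S).comp MvPowerSeries.C)) (RingHom.injective _) p
  haveI : FaithfulSMul (PS n k') S := (faithfulSMul_iff_algebraMap_injective _ _).2 hinj
  haveI : IsLocalHom (algebraMap (PS n k') S) := inferInstance
  let χ : PS n k' →+* F := (residue S).comp (algebraMap (PS n k') S)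
  let φ : k' →+* F := χ.comp MvPowerSeries.C
  have hχ : χ = φ.comp MvPowerSeries.constantCoeff := by
    ext a
    have h1 : a - MvPowerSeries.C (MvPowerSeries.constantCoeff a) ∈ maximalIdeal (PS n k') := by
      rw [mem_maximalIdeal, mem_nonunits_iff, MvPowerSeries.isUnit_iff_constantCoeff]
      simp
    have h2 : algebraMap (PS n k') S (a - MvPowerSeries.C (MvPowerSeries.constantCoeff a)) ∈
        maximalIdeal S := by
      rw [mem_maximalIdeal, mem_nonunits_iff]
      intro hu
      exact (mem_maximalIdeal _).1 h1 (isUnit_of_map_unit (algebraMap (PS n k') S) _ hu)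
    have h3 : χ (a - MvPowerSeries.C (MvPowerSeries.constantCoeff a)) = 0 := by
      change residue S _ = 0
      rwa [residue_eq_zero_iff]
    rw [map_sub, sub_eq_zero] at h3
    exact h3
  have hφ : φ.Finite := by
    have h1 : χ.Finite := RingHom.Finite.comp
      (RingHom.Finite.of_surjective _ residue_surjective) (by
        rw [RingHom.finite_algebraMap]; infer_instance)
    rw [hχ] at h1
    exact h1.of_comp_finite
  have hfrob : (frobenius F p).Finite := by
    refine finite_of_gen (frobenius F p) (fun i => residue S (e i)) fun b => ?_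
    obtain ⟨s, rfl⟩ := residue_surjective b
    obtain ⟨c, hc⟩ := he s
    refine ⟨fun i => residue S (c i), ?_⟩
    conv_lhs => rw [hc]
    simp [frobenius_def]
  have h2 : (φ.comp (frobenius k' p)).Finite := by
    have : φ.comp (frobenius k' p) = (frobenius F p).comp φ := by
      ext x; simp [frobenius_def]
    rw [this]
    exact hfrob.comp hφ
  exact finite_of_comp_inj (frobenius k' p) φ φ.injective h2

namespace DualAux

variable {A T : Type*} [CommRing A] [IsDomain A] [CommRing T] [IsDomain T] [Algebra A T]
  [Module.Finite A T]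

/-- a nonzero functional is nondegenerate -/
lemma nondeg (l : T →ₗ[A] A) (hl : l ≠ 0) (t : T) (ht : ∀ x, l (t * x) = 0) : t = 0 := by
  by_contra hne
  have h1 : (Ideal.span {t}).comap (algebraMap A T) ≠ ⊥ :=
    Ideal.comap_ne_bot_of_integral_mem hne (Ideal.mem_span_singleton_self t)
      (Algebra.IsIntegral.isIntegral t)
  obtain ⟨a, ha, ha0⟩ := Submodule.exists_mem_ne_zero_of_ne_bot h1
  rw [Ideal.mem_comap, Ideal.mem_span_singleton'] at ha
  obtain ⟨s, hs⟩ := ha
  apply hl
  ext x
  have h2 : a * l x = 0 := by
    rw [← smul_eq_mul, ← map_smul, Algebra.smul_def, ← hs]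
    have := ht (s * x)
    rw [← this]
    congr 1
    ring
  rw [LinearMap.zero_apply]
  exact (mul_eq_zero.1 h2).resolve_left ha0

/-- a common denominator -/
lemma exists_denom [Module.Free A T] (l : T →ₗ[A] A) (hl : l ≠ 0) :
    ∃ a : A, a ≠ 0 ∧ ∀ m : T →ₗ[A] A, ∃ t : T, ∀ x, a * m x = l (t * x) := by
  classical
  let b := Module.finBasis A T
  let M : Matrix (Fin (Module.finrank A T)) (Fin (Module.finrank A T)) A :=
    Matrix.of fun i j => l (b i * b j)
  have hM : ∀ (v : Fin (Module.finrank A T) → A) j,
      Matrix.vecMul v M j = l ((∑ i, v i • b i) * b j) := by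
    intro v j
    rw [Finset.sum_mul, map_sum]
    simp only [Matrix.vecMul, dotProduct, M, Matrix.of_apply, smul_mul_assoc, map_smul,
      smul_eq_mul]
  have hdet : M.det ≠ 0 := by
    intro h0
    obtain ⟨v, hv, hv0⟩ := Matrix.exists_vecMul_eq_zero_iff.2 h0
    have h1 : (∑ i, v i • b i) = 0 := by
      refine nondeg l hl _ fun x => ?_
      have h2 : (l.comp (LinearMap.mulLeft A (∑ i, v i • b i))) = 0 := by
        refine b.ext fun j => ?_
        have := congrFun hv0 j
        rw [hM] at this
        simpa using this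
      exact LinearMap.congr_fun h2 x
    apply hv
    funext i
    have h3 := b.linearIndependent
    rw [Fintype.linearIndependent_iff] at h3
    exact h3 v h1 i
  refine ⟨M.det, hdet, fun m => ?_⟩
  let w : Fin (Module.finrank A T) → A := Matrix.vecMul (fun j => m (b j)) M.adjugate
  refine ⟨∑ i, w i • b i, fun x => ?_⟩
  have h1 : (M.det • m) = (l.comp (LinearMap.mulLeft A (∑ i, w i • b i))) := by
    refine b.ext fun j => ?_
    have h2 : l ((∑ i, w i • b i) * b j) = M.det * m (b j) := by
      rw [← hM, Matrix.vecMul_vecMul, Matrix.adjugate_mul, Matrix.vecMul_smul, Matrix.vecMul_one]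
      rfl
    simpa using h2.symm
  exact LinearMap.congr_fun h1 x

/-- a nonzero functional exists -/
lemma exists_ne_zero [Module.Free A T] : ∃ l : T →ₗ[A] A, l ≠ 0 := by
  let b := Module.finBasis A T
  have hn : 0 < Module.finrank A T := by
    rw [Nat.pos_iff_ne_zero]
    intro h0
    have h1 := b.sum_repr (1 : T)
    haveI : IsEmpty (Fin (Module.finrank A T)) := by rw [h0]; infer_instance
    rw [Finset.univ_eq_empty, Finset.sum_empty] at h1
    exact zero_ne_one h1
  refine ⟨b.coord ⟨0, hn⟩, fun h => ?_⟩
  have h1 := LinearMap.congr_fun h (b ⟨0, hn⟩)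
  simp at h1

end DualAux

/-- L1: the dual module is isomorphic to a nonzero ideal. -/
theorem exists_dual_ideal (A T : Type*) [CommRing A] [IsDomain A] [CommRing T] [IsDomain T]
    [Algebra A T] [Module.Finite A T] [Module.Free A T] :
    ∃ J : Ideal T, J ≠ ⊥ ∧ IsDual A T J := by
  classical
  obtain ⟨l, hl⟩ := exists_ne_zero (A := A) (T := T)
  obtain ⟨a, ha, hden⟩ := exists_denom l hl
  let J : Ideal T :=
    { carrier := {t | ∃ m : T →ₗ[A] A, ∀ x, a * m x = l (t * x)}
      add_mem' := by
        rintro t t' ⟨m, hm⟩ ⟨m', hm'⟩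
        exact ⟨m + m', fun x => by rw [LinearMap.add_apply, mul_add, hm, hm', add_mul, map_add]⟩
      zero_mem' := ⟨0, fun x => by simp⟩
      smul_mem' := by
        rintro s t ⟨m, hm⟩
        refine ⟨m.comp (LinearMap.mulLeft A s), fun x => ?_⟩
        rw [LinearMap.comp_apply, LinearMap.mulLeft_apply, hm, smul_eq_mul]
        congr 1
        ring }
  have hJ : ∀ t : J, ∃ m : T →ₗ[A] A, ∀ x, a * m x = l ((t : T) * x) := fun t => t.2
  choose F hF using hJ
  have huniq : ∀ m m' : T →ₗ[A] A, (∀ x, a * m x = a * m' x) → m = m' := fun m m' h =>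
    LinearMap.ext fun x => mul_left_cancel₀ ha (h x)
  let ε : J →+ (T →ₗ[A] A) :=
    { toFun := F
      map_zero' := huniq _ _ fun x => by rw [hF]; simp
      map_add' := fun t t' => huniq _ _ fun x => by
        rw [hF, LinearMap.add_apply, mul_add, hF, hF, Submodule.coe_add, add_mul, map_add] }
  have hinj : Function.Injective ε := by
    rw [injective_iff_map_eq_zero]
    intro t ht
    refine Subtype.ext (nondeg l hl _ fun x => ?_)
    rw [← hF]
    have : F t = 0 := ht
    rw [this, LinearMap.zero_apply, mul_zero]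
  have hsurj : Function.Surjective ε := by
    intro m
    obtain ⟨t, ht⟩ := hden m
    refine ⟨⟨t, m, ht⟩, huniq _ _ fun x => ?_⟩
    change a * F _ x = _
    rw [hF, ht]
  refine ⟨J, ?_, AddEquiv.ofBijective ε ⟨hinj, hsurj⟩, ?_⟩
  · intro hbot
    have h1 : algebraMap A T a ∈ J := ⟨l, fun x => by
      rw [← Algebra.smul_def, map_smul, smul_eq_mul]⟩
    rw [hbot, Ideal.mem_bot] at h1
    apply hl
    ext x
    have h2 : a * l x = 0 := by
      rw [← smul_eq_mul, ← map_smul, Algebra.smul_def, h1, zero_mul, map_zero]
    rw [LinearMap.zero_apply]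
    exact (mul_eq_zero.1 h2).resolve_left ha
  · intro t w x
    change F (t • w) x = F w (t * x)
    apply mul_left_cancel₀ ha
    rw [hF, hF]
    congr 1
    rw [Submodule.coe_smul, smul_eq_mul]
    ring

end Pool.Agent.WFT
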