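import Pool.Agent.Lib_helper26.Ex.Local
import Pool.Agent.WFT.FinalDefs

/-! MP_7dd379_ag: Frobenius splittings of the example ring (helper66). -/

namespace Pool.Agent.Ex26S

open MvPowerSeries IsLocalRing Pool.Agent.Ex26 Pool.Agent.WFT

section S1

variable {σ : Type*} {k : Type*} [Field k] (p : ℕ) [hp : Fact p.Prime] [CharP k p]
  [PerfectRing k p] (e : ℕ)

/-- the monomial Cartier map -/
noncomputable def phi (g : σ →₀ ℕ) : MvPowerSeries σ k →+ MvPowerSeries σ k where
  toFun h := fun n => (iterateFrobeniusEquiv k p e).symm (coeff (p ^ e • n + g) h)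
  map_zero' := by
    ext n
    change (iterateFrobeniusEquiv k p e).symm (coeff (p ^ e • n + g) 0) = 0
    simp
  map_add' x y := by
    ext n
    change (iterateFrobeniusEquiv k p e).symm (coeff (p ^ e • n + g) (x + y)) =
      (iterateFrobeniusEquiv k p e).symm (coeff (p ^ e • n + g) x) +
      (iterateFrobeniusEquiv k p e).symm (coeff (p ^ e • n + g) y)
    simp

theorem coeff_phi (g : σ →₀ ℕ) (h : MvPowerSeries σ k) (n : σ →₀ ℕ) :
    coeff n (phi p e g h) = (iterateFrobeniusEquiv k p e).symm (coeff (p ^ e • n + g) h) := rfl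

variable {e}

omit [PerfectRing k p] in
lemma coeff_pow_smul (x : MvPowerSeries σ k) (m : σ →₀ ℕ) :
    coeff (p ^ e • m) (x ^ p ^ e) = (coeff m x) ^ p ^ e := by
  rw [← map_iterateFrobenius_expand p hp.1.ne_zero x e, coeff_map, coeff_expand_smul,
    iterateFrobenius_def]

omit [PerfectRing k p] in
lemma coeff_pow_of_not_dvd (x : MvPowerSeries σ k) {m : σ →₀ ℕ} {i : σ}
    (h : ¬ p ^ e ∣ m i) : coeff m (x ^ p ^ e) = 0 := by
  rw [← map_iterateFrobenius_expand p hp.1.ne_zero x e, coeff_map,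
    coeff_expand_of_not_dvd _ _ _ h, map_zero]

theorem isCartier_phi (g : σ →₀ ℕ) (hg : ∀ i, g i < p ^ e) :
    IsCartier (p ^ e) (phi (k := k) p e g) := by
  classical
  intro x y
  have hq : 0 < p ^ e := pow_pos hp.1.pos _
  ext β
  rw [coeff_phi, coeff_mul, coeff_mul, map_sum]
  symm
  refine Finset.sum_of_injOn (fun r => (p ^ e • r.1, p ^ e • r.2 + g)) ?_ ?_ ?_ ?_
  · rintro ⟨a1, a2⟩ _ ⟨b1, b2⟩ _ h
    simp only [Prod.mk.injEq] at h
    obtain ⟨h1, h2⟩ := h
    rw [Prod.mk.injEq]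
    constructor
    · ext i
      have := DFunLike.congr_fun h1 i
      simp only [Finsupp.smul_apply, smul_eq_mul] at this
      exact Nat.eq_of_mul_eq_mul_left hq this
    · ext i
      have := DFunLike.congr_fun h2 i
      simp only [Finsupp.add_apply, Finsupp.smul_apply, smul_eq_mul] at this
      exact Nat.eq_of_mul_eq_mul_left hq (by omega)
  · rintro ⟨a1, a2⟩ h
    simp only [Finset.mem_coe, Finset.HasAntidiagonal.mem_antidiagonal] at h ⊢
    rw [← h]
    ext i
    simp only [Finsupp.add_apply, Finsupp.smul_apply, smul_eq_mul]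
    ring
  · rintro ⟨m1, m2⟩ hm hn
    rw [Finset.HasAntidiagonal.mem_antidiagonal] at hm
    simp only at hm
    by_cases hd : ∀ i, p ^ e ∣ m1 i
    · exfalso
      apply hn
      let n1 : σ →₀ ℕ := m1.mapRange (fun j => j / p ^ e) (Nat.zero_div _)
      have hn1 : ∀ i, n1 i = m1 i / p ^ e := fun i => by
        simp only [n1, Finsupp.mapRange_apply]
      have hm1 : m1 = p ^ e • n1 := by
        ext i
        rw [Finsupp.smul_apply, smul_eq_mul, hn1]
        exact (Nat.mul_div_cancel' (hd i)).symm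
      have hle : n1 ≤ β := by
        intro i
        have h1 := DFunLike.congr_fun hm i
        rw [Finsupp.add_apply, Finsupp.add_apply, Finsupp.smul_apply, smul_eq_mul, hm1,
          Finsupp.smul_apply, smul_eq_mul] at h1
        have h2 := hg i
        by_contra hc
        push Not at hc
        have h3 : p ^ e * (β i + 1) ≤ p ^ e * n1 i := Nat.mul_le_mul_left _ hc
        have h4 : p ^ e * (β i + 1) = p ^ e * β i + p ^ e := by ring
        omega
      refine ⟨(n1, β - n1), ?_, ?_⟩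
      · simp only [Finset.mem_coe, Finset.HasAntidiagonal.mem_antidiagonal]
        exact add_tsub_cancel_of_le hle
      · rw [Prod.mk.injEq]
        refine ⟨hm1.symm, ?_⟩
        have h1 : p ^ e • n1 + (p ^ e • (β - n1) + g) = p ^ e • n1 + m2 := by
          rw [← add_assoc, ← smul_add, add_tsub_cancel_of_le hle, ← hm1]
          exact hm.symm
        exact add_left_cancel h1
    · push Not at hd
      obtain ⟨i, hi⟩ := hd
      rw [coeff_pow_of_not_dvd p x hi, zero_mul, map_zero]
  · rintro ⟨m1, m2⟩ _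
    simp only
    rw [coeff_phi, coeff_pow_smul, map_mul]
    congr 1
    rw [← iterateFrobenius_def, ← coe_iterateFrobeniusEquiv, RingEquiv.symm_apply_apply]

theorem phi_monomial (g : σ →₀ ℕ) : phi (k := k) p e g (monomial g 1) = 1 := by
  classical
  have hq : 0 < p ^ e := pow_pos hp.1.pos _
  ext n
  rw [coeff_phi, coeff_monomial, coeff_one]
  by_cases h : n = 0
  · subst h
    rw [smul_zero, zero_add, if_pos rfl, if_pos rfl, map_one]
  · rw [if_neg, if_neg h, map_zero]
    intro h2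
    apply h
    ext i
    have := DFunLike.congr_fun h2 i
    rw [Finsupp.add_apply, Finsupp.smul_apply, smul_eq_mul] at this
    have h3 : p ^ e * n i = 0 := by omega
    rw [Finsupp.zero_apply]
    exact (Nat.mul_eq_zero.1 h3).resolve_left hq.ne'

end S1

section S2

variable (m : ℕ) {k : Type*} [Field k] (p : ℕ) [hp : Fact p.Prime] [CharP k p]
  [PerfectRing k p] (e : ℕ)

/-- the monomial Cartier map on the example ring -/
noncomputable def phiR (g : Var m →₀ ℕ) (hg : Wt m g = 0) : Rg m k →+ Rg m k where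
  toFun f := ⟨phi p e g (f : MvPowerSeries (Var m) k), by
    intro n hn
    rw [coeff_phi]
    have h1 : Wt m (p ^ e • n + g) ≠ 0 := by
      rw [map_add, hg, add_zero, map_nsmul]
      exact smul_ne_zero (pow_ne_zero _ hp.1.ne_zero) hn
    rw [f.2 _ h1, map_zero]⟩
  map_zero' := Subtype.ext (by
    change phi p e g (0 : MvPowerSeries (Var m) k) = 0
    exact map_zero _)
  map_add' x y := Subtype.ext (by
    exact map_add (phi p e g) (x : MvPowerSeries (Var m) k) (y : MvPowerSeries (Var m) k))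

theorem isCartier_phiR (g : Var m →₀ ℕ) (hg : Wt m g = 0) (hlt : ∀ i, g i < p ^ e) :
    IsCartier (p ^ e) (phiR (k := k) m p e g hg) := by
  intro x y
  apply Subtype.ext
  exact isCartier_phi p g hlt (x : MvPowerSeries (Var m) k) y

end S2

section S3

variable (m : ℕ) {k : Type*} [Field k]

/-- exponent of the product of generators -/
noncomputable def gexp (a : Fin 5 ⊕ Fin m → ℕ) : Var m →₀ ℕ := ∑ j, a j • gen m j

theorem Wt_gexp (a : Fin 5 ⊕ Fin m → ℕ) : Wt m (gexp m a) = 0 := by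
  unfold gexp
  rw [map_sum]
  refine Finset.sum_eq_zero fun j _ => ?_
  rw [map_nsmul, Wt_gen, smul_zero]

theorem prod_gR (a : Fin 5 ⊕ Fin m → ℕ) :
    ((∏ j, (gR j : Rg m k) ^ a j : Rg m k) : MvPowerSeries (Var m) k) =
      monomial (gexp m a) 1 := by
  have h1 : ((∏ j, (gR j : Rg m k) ^ a j : Rg m k) : MvPowerSeries (Var m) k) =
      ∏ j, (monomial (gen m j) (1 : k)) ^ a j := by
    have := map_prod (inc (Wt m) k) (fun j => (gR j : Rg m k) ^ a j) Finset.univ
    refine this.trans (Finset.prod_congr rfl fun j _ => ?_)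
    rw [map_pow]
    rfl
  rw [h1]
  unfold gexp
  have h2 : ∀ s : Finset (Fin 5 ⊕ Fin m), ∏ j ∈ s, (monomial (gen m j) (1 : k)) ^ a j =
      monomial (∑ j ∈ s, a j • gen m j) 1 := by
    classical
    intro s
    induction s using Finset.induction_on with
    | empty => simp
    | insert j s hj ih =>
      rw [Finset.prod_insert hj, Finset.sum_insert hj, ih, monomial_pow, one_pow,
        monomial_mul_monomial, one_mul]
  exact h2 _

theorem prod_mem (a : Fin 5 ⊕ Fin m → ℕ) :
    (∏ j, (gR j : Rg m k) ^ a j : Rg m k) ∈ maximalIdeal (Rg m k) ^ (∑ j, a j) := by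
  classical
  have h : ∀ s : Finset (Fin 5 ⊕ Fin m), (∏ j ∈ s, (gR j : Rg m k) ^ a j : Rg m k) ∈
      maximalIdeal (Rg m k) ^ (∑ j ∈ s, a j) := by
    intro s
    induction s using Finset.induction_on with
    | empty => simp
    | insert j s hj ih =>
      rw [Finset.prod_insert hj, Finset.sum_insert hj, pow_add]
      refine Ideal.mul_mem_mul (Ideal.pow_mem_pow ?_ _) ih
      rw [maximalIdeal_eq]
      exact Ideal.subset_span ⟨j, rfl⟩
  exact h _

theorem gexp_u (a : Fin 5 ⊕ Fin m → ℕ) : gexp m a (Sum.inl 0) =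
    a (Sum.inl 0) + 2 * a (Sum.inl 2) + a (Sum.inl 3) := by
  simp [gexp, Finsupp.finset_sum_apply, Fin.sum_univ_five, gen, Finsupp.single_apply]
  ring

theorem gexp_v (a : Fin 5 ⊕ Fin m → ℕ) : gexp m a (Sum.inl 1) =
    a (Sum.inl 1) + a (Sum.inl 3) + 2 * a (Sum.inl 4) := by
  simp [gexp, Finsupp.finset_sum_apply, Fin.sum_univ_five, gen, Finsupp.single_apply]
  ring

theorem gexp_s (a : Fin 5 ⊕ Fin m → ℕ) : gexp m a (Sum.inl 2) =
    a (Sum.inl 0) + a (Sum.inl 1) := by
  simp [gexp, Finsupp.finset_sum_apply, Fin.sum_univ_five, gen, Finsupp.single_apply]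

theorem gexp_t (a : Fin 5 ⊕ Fin m → ℕ) : gexp m a (Sum.inl 3) =
    a (Sum.inl 2) + a (Sum.inl 3) + a (Sum.inl 4) := by
  simp [gexp, Finsupp.finset_sum_apply, Fin.sum_univ_five, gen, Finsupp.single_apply]

theorem gexp_w (a : Fin 5 ⊕ Fin m → ℕ) (i : Fin m) : gexp m a (Sum.inr i) = a (Sum.inr i) := by
  simp [gexp, Finsupp.finset_sum_apply, Fin.sum_univ_five, gen, Finsupp.single_apply]

variable (p : ℕ) [hp : Fact p.Prime] [CharP k p] [PerfectRing k p] (e : ℕ)

theorem hasSplit_of_exp (a : Fin 5 ⊕ Fin m → ℕ) (ha : ∀ i, gexp m a i < p ^ e) :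
    HasSplit (Rg m k) (p ^ e) (∑ j, a j) := by
  refine ⟨_, prod_mem m a, phiR m p e (gexp m a) (Wt_gexp m a), isCartier_phiR m p e _ _ ha, ?_⟩
  apply Subtype.ext
  change phi p e (gexp m a) ((∏ j, (gR j : Rg m k) ^ a j : Rg m k) : MvPowerSeries (Var m) k) = 1
  rw [prod_gR]
  exact phi_monomial p _

/-- S3 -/
theorem hasSplit_Rg : ∃ N : ℕ, (2 * (m + 3) - 3) * (p ^ e - 1) ≤ 2 * N + 2 ∧
    HasSplit (Rg m k) (p ^ e) N := by
  have hq : 0 < p ^ e := pow_pos hp.1.pos _
  set q := p ^ e with hqdef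
  have hm : 2 * (m + 3) - 3 = 2 * m + 3 := by omega
  rw [hm]
  rcases Nat.even_or_odd q with ⟨h, hh⟩ | ⟨h, hh⟩
  · let a : Fin 5 ⊕ Fin m → ℕ := Sum.elim ![2 * h - 2, 0, 0, 1, h - 1] fun _ => q - 1
    refine ⟨_, ?_, hasSplit_of_exp m p e a ?_⟩
    · have : ∑ j, a j = 3 * h - 2 + m * (q - 1) := by
        rw [Fintype.sum_sum_type]
        simp [a, Fin.sum_univ_five]
        omega
      rw [this]
      obtain ⟨c, rfl⟩ : ∃ c, h = c + 1 := ⟨h - 1, by omega⟩
      have e1 : q - 1 = 2 * c + 1 := by omega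
      rw [e1]
      have e2 : 3 * (c + 1) - 2 = 3 * c + 1 := by omega
      rw [e2]
      nlinarith
    · rintro (i | i)
      · fin_cases i
        · change gexp m a (Sum.inl 0) < q
          rw [gexp_u]; simp [a]; omega
        · change gexp m a (Sum.inl 1) < q
          rw [gexp_v]; simp [a]; omega
        · change gexp m a (Sum.inl 2) < q
          rw [gexp_s]; simp [a]; omega
        · change gexp m a (Sum.inl 3) < q
          rw [gexp_t]; simp [a]; omega
      · rw [gexp_w]
        simp [a]; omega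
  · let a : Fin 5 ⊕ Fin m → ℕ := Sum.elim ![2 * h, 0, 0, 0, h] fun _ => q - 1
    refine ⟨_, ?_, hasSplit_of_exp m p e a ?_⟩
    · have : ∑ j, a j = 3 * h + m * (q - 1) := by
        rw [Fintype.sum_sum_type]
        simp [a, Fin.sum_univ_five]
        omega
      rw [this]
      have e1 : q - 1 = 2 * h := by omega
      rw [e1]
      nlinarith
    · rintro (i | i)
      · fin_cases i
        · change gexp m a (Sum.inl 0) < q
          rw [gexp_u]; simp [a]; omega
        · change gexp m a (Sum.inl 1) < q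
          rw [gexp_v]; simp [a]; omega
        · change gexp m a (Sum.inl 2) < q
          rw [gexp_s]; simp [a]; omega
        · change gexp m a (Sum.inl 3) < q
          rw [gexp_t]; simp [a]; omega
      · rw [gexp_w]
        simp [a]; omega

end S3

section pair

variable (m : ℕ) {k : Type*} [Field k] (p : ℕ) [hp : Fact p.Prime] [CharP k p] [PerfectRing k p]

/-- The example ring is F-pure (all levels). -/
theorem frobSplits_one (e : ℕ) : FrobSplits (Rg m k) (p ^ e) 1 := by
  obtain ⟨N, -, f, -, φ, hφ, h1⟩ := hasSplit_Rg (k := k) m p e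
  refine ⟨φ.comp (AddMonoidHom.mulLeft f), ?_, ?_⟩
  · intro r z
    simp only [AddMonoidHom.comp_apply, AddMonoidHom.coe_mulLeft]
    rw [← hφ]
    congr 1
    ring
  · simp only [AddMonoidHom.comp_apply, AddMonoidHom.coe_mulLeft, mul_one]
    exact h1

/-- The pair `(R, m^t)` is F-pure for every `t < d - 3/2`, `d = m + 3`. -/
theorem fpurePair_Rg {t : ℝ} (ht : t < (m + 3 : ℝ) - 3 / 2) :
    FPurePair (Rg m k) p (maximalIdeal (Rg m k)) t := by
  have hp1 : (1 : ℝ) < p := by exact_mod_cast hp.1.one_lt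
  have hε : 0 < (m + 3 : ℝ) - 3 / 2 - t := by linarith
  obtain ⟨e₁, he₁⟩ := pow_unbounded_of_one_lt (2 / ((m + 3 : ℝ) - 3 / 2 - t) + 1) hp1
  refine ⟨e₁, fun e he => ?_⟩
  obtain ⟨N, hN, f, hf, hs⟩ := hasSplit_Rg (k := k) m p e
  refine ⟨f, Ideal.pow_le_pow_right ?_ hf, hs⟩
  have h1 : 2 / ((m + 3 : ℝ) - 3 / 2 - t) + 1 < (p : ℝ) ^ e :=
    he₁.trans_le (pow_le_pow_right₀ hp1.le he)
  have h2 : 2 < ((m + 3 : ℝ) - 3 / 2 - t) * ((p : ℝ) ^ e - 1) := by
    have h3 : 2 / ((m + 3 : ℝ) - 3 / 2 - t) < (p : ℝ) ^ e - 1 := by linarith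
    rw [div_lt_iff₀ hε] at h3
    linarith
  rw [Nat.ceil_le]
  have hq : 1 ≤ p ^ e := Nat.one_le_pow _ _ hp.1.pos
  have h4 : (((2 * (m + 3) - 3) * (p ^ e - 1) : ℕ) : ℝ) ≤ ((2 * N + 2 : ℕ) : ℝ) := by
    exact_mod_cast hN
  have h5 : ((2 * (m + 3) - 3 : ℕ) : ℝ) = 2 * (m + 3) - 3 := by
    rw [Nat.cast_sub (by omega)]; push_cast; ring
  rw [Nat.cast_mul, h5, Nat.cast_sub hq] at h4
  push_cast at h4
  nlinarith

end pair

end Pool.Agent.Ex26S
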