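import Pool.Agent.Lib_helper66.WFT.Split

/-! MP_7dd379_ag: for odd `p` the threshold of the example ring is attained (helper66). -/

namespace Pool.Agent.Ex26S

open MvPowerSeries IsLocalRing Pool.Agent.Ex26 Pool.Agent.WFT

variable (m : ℕ) {k : Type*} [Field k] (p : ℕ) [hp : Fact p.Prime] [CharP k p] [PerfectRing k p]

theorem hasSplit_Rg_odd (hp2 : p ≠ 2) (e : ℕ) : ∃ N : ℕ,
    (2 * (m + 3) - 3) * (p ^ e - 1) = 2 * N ∧ HasSplit (Rg m k) (p ^ e) N := by
  have hq : 0 < p ^ e := pow_pos hp.1.pos _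
  have hodd : Odd (p ^ e) := (hp.1.odd_of_ne_two hp2).pow
  set q := p ^ e with hqdef
  have hm : 2 * (m + 3) - 3 = 2 * m + 3 := by omega
  rw [hm]
  obtain ⟨h, hh⟩ := hodd
  let a : Fin 5 ⊕ Fin m → ℕ := Sum.elim ![2 * h, 0, 0, 0, h] fun _ => q - 1
  refine ⟨_, ?_, hasSplit_of_exp m p e a ?_⟩
  · have : ∑ j, a j = 3 * h + m * (q - 1) := by
      rw [Fintype.sum_sum_type]
      simp [a, Fin.sum_univ_five]
      omega
    rw [this]
    have e1 : q - 1 = 2 * h := by omega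
    rw [e1]
    ring
  · rintro (i | i)
    · fin_cases i
      · change gexp m a (Sum.inl 0) < q
        rw [gexp_u]; simp [a]; omega
      · change gexp m a (Sum.inl 1) < q
        rw [gexp_v]; simp [a]; omega
      · change gexp m a (Sum.inl 2) < q
        rw [gexp_s]; simp [a]; omega
      · change gexp m a (Sum.inl 3) < q
        rw [gexp_t]; simp [a]; omega
    · rw [gexp_w]
      simp [a]; omega

/-- For odd `p` the pair `(R, m^t)` is F-pure for every `t ≤ d - 3/2`, `d = m + 3`. -/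
theorem fpurePair_Rg_odd (hp2 : p ≠ 2) {t : ℝ} (ht : t ≤ (m + 3 : ℝ) - 3 / 2) :
    FPurePair (Rg m k) p (maximalIdeal (Rg m k)) t := by
  refine ⟨0, fun e _ => ?_⟩
  obtain ⟨N, hN, f, hf, hs⟩ := hasSplit_Rg_odd (k := k) m p hp2 e
  refine ⟨f, Ideal.pow_le_pow_right ?_ hf, hs⟩
  rw [Nat.ceil_le]
  have hq : 1 ≤ p ^ e := Nat.one_le_pow _ _ hp.1.pos
  have h4 : (((2 * (m + 3) - 3) * (p ^ e - 1) : ℕ) : ℝ) = ((2 * N : ℕ) : ℝ) := by
    exact_mod_cast hN
  have h5 : ((2 * (m + 3) - 3 : ℕ) : ℝ) = 2 * (m + 3) - 3 := by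
    rw [Nat.cast_sub (by omega)]; push_cast; ring
  rw [Nat.cast_mul, h5, Nat.cast_sub hq] at h4
  push_cast at h4
  have h6 : (1 : ℝ) ≤ (p : ℝ) ^ e := by exact_mod_cast hq
  nlinarith

end Pool.Agent.Ex26S
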